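import Pool.Agent.Helper79.EOL.Explicit
import Pool.Agent.Helper21.EOLS.Short

/-!
# The classification of the EOL-complete `{S, a}`-forms
-/

namespace Pool.Agent.Results.MP_87252e_lc.Classification

open List Pool.Agent.Helper76.EOL Pool.Agent.Helper79.EOL Pool.Agent.Helper21.EOLS

theorem result (F : Grammar) (a d : ℕ) (hF : IsSaForm F a) (hd : ∀ p ∈ F.P, p.2.length ≤ d) :
    (Complete F ↔
      (∃ α, (a, α) ∈ F.P ∧ F.S ∈ α) ∧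
      (∀ k, 1 ≤ k → k ≤ d * (d + 1) → GuardedIn F ((d + 1) ^ 4) (replicate k a)) ∧
      (((∃ X, (X, []) ∈ F.P) ∧ ((∃ α, (a, α) ∈ F.P ∧ α.count a ≤ 1 ∧ α ≠ [a]) ∨
          ∃ s, 2 ≤ s ∧ (F.S, replicate s F.S) ∈ F.P)) ∨
        ((¬ ∃ X, (X, []) ∈ F.P) ∧
          ((a, [F.S]) ∈ F.P ∨
            ((F.S, [F.S]) ∈ F.P ∧
              ∃ j, 2 ≤ j ∧ ((F.S, replicate j F.S) ∈ F.P ∨ (a, replicate j F.S) ∈ F.P)) ∨
            ((F.S, [F.S]) ∈ F.P ∧ (a, [a]) ∈ F.P ∧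
              (∃ α, (F.S, α) ∈ F.P ∧ F.S ∈ α ∧ α.count a = 1) ∧
              (∃ i, 1 ≤ i ∧ (a, replicate i F.S ++ [a]) ∈ F.P) ∧
              ∃ j, 1 ≤ j ∧ (a, a :: replicate j F.S) ∈ F.P))))) ∧
    (d ≤ 2 → (Complete F ↔ ∀ t ∈ shortTable F.S a, ¬ Within F a t)) :=
  ⟨complete_iff_explicit hF hd, fun h => short_iff hF fun p hp => (hd p hp).trans h⟩

end Pool.Agent.Results.MP_87252e_lc.Classification
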